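import Pool.Agent.Y900.QF.Nsqc
import Pool.Agent.Y752.QF.Stm4

set_option autoImplicit false

/-!
# Project QF (helper752), jobs PVC and NS2: squarefree numerators, mean square over the moduli
-/

namespace Pool.Agent.Y492.QF

open Finset
open Pool.Agent.H306R2.RZ (js osf)
open Pool.Agent.Y900.QF (jr jr_mul jr_abs class_c BB_nonneg)
open Pool.Agent.Y369.QF (BB BB_le sqf_ind sq_mod8)
open Pool.Agent.H66R2.RZFI1 (mu mu_abs)
open Pool.Agent.Y752.QF

theorem js_jr (n e : ℕ) : js (e : ℤ) n = jr n e := rfl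

theorem PVC : S_PVC := by
  intro ε hε
  obtain ⟨C, hC, hB⟩ := BB_le (ε / 2) (by positivity)
  obtain ⟨C1, hC1, hd⟩ := H353.divisor_bound_real ε hε
  refine ⟨C1 * (2 * C), by positivity, ?_⟩
  intro n E l a ho hn hl ha
  have hn1 : 1 ≤ n := ho.pos
  have hn0 : (0 : ℝ) < n := by exact_mod_cast hn1
  have hl0 : (0 : ℝ) < l := by exact_mod_cast hl
  have hr : 0 ≤ (n : ℝ) ^ (1 / 2 + ε) := Real.rpow_nonneg hn0.le _
  have hr' : 0 ≤ (l : ℝ) ^ ε := Real.rpow_nonneg hl0.le _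
  rcases lt_or_ge a 8 with ha8 | ha8
  · have h1 := class_c n ho hn a E l ha8 ha hl
    have h6 := hB n hn1
    rw [show (1 / 2 : ℝ) + 2 * (ε / 2) = 1 / 2 + ε by ring] at h6
    have h7 := hd l (by omega)
    have h8 := BB_nonneg n
    calc _ ≤ (l.divisors.card : ℝ) * (2 * BB n) := h1
      _ ≤ (C1 * (l : ℝ) ^ ε) * (2 * (C * (n : ℝ) ^ (1 / 2 + ε))) := by gcongr
      _ = _ := by ring
  · have h1 : (Icc 1 E).filter (fun e => e % 8 = a ∧ Nat.Coprime e l) = ∅ := by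
      rw [filter_eq_empty_iff]
      rintro d _ ⟨h2, _⟩
      have := Nat.mod_lt d (show 8 > 0 by norm_num)
      omega
    rw [h1, sum_empty, abs_zero]
    positivity

/-- the inner sum -/
noncomputable def SS (a L n E : ℕ) : ℝ :=
  ∑ e ∈ (Icc 1 E).filter (fun e => e % 8 = a ∧ Nat.Coprime e L), jr n e

theorem inner_le (n a D L r : ℕ) (ha1 : a % 2 = 1) (hr : 1 ≤ r) :
    |∑ d ∈ (Icc 1 D).filter (fun d => (d % 8 = a ∧ d.Coprime L) ∧ r ^ 2 ∣ d), jr n d| ≤
      |SS a L n (D / r ^ 2)| := by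
  have hr2 : 0 < r ^ 2 := by positivity
  by_cases hc : Odd r ∧ r.Coprime L
  · obtain ⟨hro, hrL⟩ := hc
    have hr1 : r % 2 = 1 := Nat.odd_iff.mp hro
    have h1 : ∑ d ∈ (Icc 1 D).filter (fun d => (d % 8 = a ∧ d.Coprime L) ∧ r ^ 2 ∣ d), jr n d =
        ∑ e ∈ (Icc 1 (D / r ^ 2)).filter (fun e => e % 8 = a ∧ e.Coprime L),
          jr n (r ^ 2) * jr n e := by
      symm
      apply sum_nbij' (fun e => r ^ 2 * e) (fun d => d / r ^ 2)
      · intro e he
        rw [mem_filter, mem_Icc] at he ⊢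
        refine ⟨⟨Nat.mul_pos hr2 he.1.1, ?_⟩, ⟨?_, ?_⟩, dvd_mul_right _ _⟩
        · rw [mul_comm]
          exact (Nat.le_div_iff_mul_le hr2).mp he.1.2
        · rw [Nat.mul_mod, sq_mod8 hr1, one_mul, Nat.mod_mod]
          exact he.2.1
        · exact Nat.Coprime.mul_left (hrL.pow_left 2) he.2.2
      · intro d hd
        rw [mem_filter, mem_Icc] at hd ⊢
        obtain ⟨⟨h1, h2⟩, ⟨h3, h4⟩, k, hk⟩ := hd
        have hk0 : k ≠ 0 := by rintro rfl; omega
        have e1 : d / r ^ 2 = k := by rw [hk]; exact Nat.mul_div_cancel_left k hr2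
        rw [e1]
        refine ⟨⟨by omega, ?_⟩, ?_, ?_⟩
        · rw [← e1]
          exact Nat.div_le_div_right h2
        · rw [hk, Nat.mul_mod, sq_mod8 hr1, one_mul, Nat.mod_mod] at h3
          exact h3
        · rw [hk] at h4
          exact Nat.Coprime.coprime_mul_left h4
      · intro e he
        exact Nat.mul_div_cancel_left e hr2
      · intro d hd
        rw [mem_filter, mem_Icc] at hd
        exact Nat.mul_div_cancel' hd.2.2
      · intro e he
        exact (jr_mul n (r ^ 2) e).symm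
    rw [h1, ← mul_sum, abs_mul]
    calc _ ≤ 1 * |SS a L n (D / r ^ 2)| :=
          mul_le_mul_of_nonneg_right (jr_abs n _) (abs_nonneg _)
      _ = _ := one_mul _
  · have h1 : (Icc 1 D).filter (fun d => (d % 8 = a ∧ d.Coprime L) ∧ r ^ 2 ∣ d) = ∅ := by
      rw [filter_eq_empty_iff]
      rintro d _ ⟨⟨h1, h2⟩, h3⟩
      apply hc
      have h4 : r ∣ d := (dvd_pow_self r two_ne_zero).trans h3
      refine ⟨?_, Nat.Coprime.coprime_dvd_left h4 h2⟩
      have hd : Odd d := by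
        rw [Nat.odd_iff]
        omega
      exact Odd.of_dvd_nat hd h4
    rw [h1, sum_empty, abs_zero]
    exact abs_nonneg _

open Classical in
theorem outer_le (n a D L : ℕ) (ha1 : a % 2 = 1) :
    |∑ d ∈ (Icc 1 D).filter (fun d => Squarefree d ∧ d % 8 = a ∧ Nat.Coprime d L), jr n d| ≤
      ∑ r ∈ Icc 1 D, |SS a L n (D / r ^ 2)| := by
  have h1 : ∑ d ∈ (Icc 1 D).filter (fun d => Squarefree d ∧ d % 8 = a ∧ Nat.Coprime d L), jr n d =
      ∑ r ∈ Icc 1 D, mu r *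
        ∑ d ∈ (Icc 1 D).filter (fun d => (d % 8 = a ∧ d.Coprime L) ∧ r ^ 2 ∣ d), jr n d := by
    simp_rw [mul_sum, sum_filter]
    rw [sum_comm]
    apply sum_congr rfl
    intro d hd
    rw [mem_Icc] at hd
    have h2 := sqf_ind hd.1 hd.2
    rw [sum_filter] at h2
    have h2' : ∑ r ∈ Icc 1 D, (if r ^ 2 ∣ d then mu r else 0) =
        if Squarefree d then (1 : ℝ) else 0 := by
      have := congrArg (fun z : ℤ => (z : ℝ)) h2
      push_cast at this
      exact this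
    by_cases h3 : d % 8 = a ∧ d.Coprime L
    · have h4 : ∀ r ∈ Icc 1 D,
          (if (d % 8 = a ∧ d.Coprime L) ∧ r ^ 2 ∣ d then mu r * jr n d else 0) =
          (if r ^ 2 ∣ d then mu r else 0) * jr n d := by
        intro r _
        by_cases h5 : r ^ 2 ∣ d
        · rw [if_pos ⟨h3, h5⟩, if_pos h5]
        · rw [if_neg (fun h => h5 h.2), if_neg h5, zero_mul]
      rw [sum_congr rfl h4, ← sum_mul, h2']
      by_cases h5 : Squarefree d
      · rw [if_pos ⟨h5, h3⟩, if_pos h5, one_mul]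
      · rw [if_neg (fun h => h5 h.1), if_neg h5, zero_mul]
    · rw [if_neg (fun h => h3 h.2)]
      symm
      refine sum_eq_zero fun r _ => ?_
      rw [if_neg (fun h => h3 h.1)]
  rw [h1]
  refine (abs_sum_le_sum_abs _ _).trans (sum_le_sum fun r hr => ?_)
  rw [mem_Icc] at hr
  rw [abs_mul]
  calc _ ≤ 1 * |SS a L n (D / r ^ 2)| :=
        mul_le_mul (mu_abs r) (inner_le n a D L r ha1 hr.1) (abs_nonneg _) zero_le_one
    _ = _ := one_mul _

/-- the mean square of the inner sum -/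
theorem Q_le {C1 C2 δ : ℝ} (hC1 : 0 < C1) (hC2 : 0 < C2) (hδ : 0 < δ)
    (h1 : ∀ N E l a : ℕ, 1 ≤ N → 1 ≤ E → 1 ≤ l → a % 2 = 1 →
      ∑ n ∈ osf N, |∑ e ∈ (Finset.Icc 1 E).filter (fun e => e % 8 = a ∧ Nat.Coprime e l),
        js e n| ^ 2 ≤ C1 * ((N : ℝ) * E) ^ δ * (N * E + (E : ℝ) ^ 2))
    (h2 : ∀ n E l a : ℕ, Odd n → ¬ IsSquare n → 1 ≤ l → a % 2 = 1 →
      |∑ e ∈ (Finset.Icc 1 E).filter (fun e => e % 8 = a ∧ Nat.Coprime e l), js e n| ≤
        C2 * (n : ℝ) ^ (1 / 2 + δ) * (l : ℝ) ^ δ)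
    {D N l a r : ℕ} (hD : 1 ≤ D) (hN : 1 ≤ N) (hl : 1 ≤ l) (ha : a % 2 = 1) (hr : 1 ≤ r) :
    ∑ n ∈ (osf N).filter (fun n => 2 ≤ n), |SS a l n (D / r ^ 2)| ^ 2 ≤
      ((C2 ^ 2 + 2 * C1) * ((D : ℝ) * N * l) ^ (2 * δ)) * ((D * N : ℝ) / (r : ℝ) ^ 2) := by
  have hD1 : (1 : ℝ) ≤ D := by exact_mod_cast hD
  have hN1 : (1 : ℝ) ≤ N := by exact_mod_cast hN
  have hl1 : (1 : ℝ) ≤ l := by exact_mod_cast hl
  have hr1 : (1 : ℝ) ≤ r := by exact_mod_cast hr
  have hP : (1 : ℝ) ≤ (D : ℝ) * N * l := by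
    have := mul_le_mul hD1 hN1 zero_le_one (by linarith)
    have := mul_le_mul this hl1 zero_le_one (by positivity)
    linarith
  have hPp : (0 : ℝ) ≤ ((D : ℝ) * N * l) ^ (2 * δ) := by positivity
  have hE : ((D / r ^ 2 : ℕ) : ℝ) ≤ (D : ℝ) / (r : ℝ) ^ 2 := by
    have := Nat.cast_div_le (α := ℝ) (m := D) (n := r ^ 2)
    push_cast at this
    exact this
  set E : ℕ := D / r ^ 2 with hEdef
  rcases Nat.eq_zero_or_pos E with hE0 | hE0
  · have : ∀ n, SS a l n E = 0 := by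
      intro n
      unfold SS
      rw [hE0]
      simp
    simp only [this, abs_zero]
    rw [sum_eq_zero (fun _ _ => by norm_num)]
    positivity
  have hE1 : (1 : ℝ) ≤ E := by exact_mod_cast hE0
  have hED : (E : ℝ) ≤ D := hE.trans (div_le_self (by linarith) (one_le_pow₀ hr1))
  rcases le_or_gt N E with hNE | hNE
  · have hNE' : (N : ℝ) ≤ E := by exact_mod_cast hNE
    have h3 : ∀ n ∈ (osf N).filter (fun n => 2 ≤ n), |SS a l n E| ^ 2 ≤
        C2 ^ 2 * ((D : ℝ) * N * l) ^ (2 * δ) * N := by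
      intro n hn
      rw [mem_filter, osf, mem_filter, mem_Icc] at hn
      obtain ⟨⟨⟨hn1, hnN⟩, hno, hns⟩, hn2⟩ := hn
      have hsq : ¬ IsSquare n := by
        rintro ⟨k, hk⟩
        have h4 : IsUnit k := hns k (by rw [hk])
        rw [Nat.isUnit_iff] at h4
        rw [h4] at hk
        omega
      have h5 := h2 n E l a hno hsq hl ha
      have h6 : |SS a l n E| ≤ C2 * (N : ℝ) ^ (1 / 2 + δ) * (l : ℝ) ^ δ := by
        refine h5.trans ?_
        have hn0 : (0 : ℝ) ≤ n := Nat.cast_nonneg n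
        have hnN' : (n : ℝ) ≤ N := by exact_mod_cast hnN
        gcongr
      refine (pow_le_pow_left₀ (abs_nonneg _) h6 2).trans ?_
      have e1 : (C2 * (N : ℝ) ^ (1 / 2 + δ) * (l : ℝ) ^ δ) ^ 2 =
          C2 ^ 2 * ((N : ℝ) * l) ^ (2 * δ) * N := by
        rw [mul_pow, mul_pow, ← Real.rpow_natCast ((N : ℝ) ^ (1 / 2 + δ)) 2,
          ← Real.rpow_natCast ((l : ℝ) ^ δ) 2, ← Real.rpow_mul (by linarith),
          ← Real.rpow_mul (by linarith), Real.mul_rpow (by linarith) (by linarith)]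
        have e2 : (N : ℝ) ^ ((1 / 2 + δ) * ((2 : ℕ) : ℝ)) = (N : ℝ) ^ (2 * δ) * N := by
          have : (1 / 2 + δ) * ((2 : ℕ) : ℝ) = 2 * δ + 1 := by push_cast; ring
          rw [this, Real.rpow_add (by linarith), Real.rpow_one]
        have e3 : (l : ℝ) ^ (δ * ((2 : ℕ) : ℝ)) = (l : ℝ) ^ (2 * δ) := by
          congr 1
          push_cast
          ring
        rw [e2, e3]
        ring
      rw [e1]
      have e4 : (N : ℝ) * l ≤ (D : ℝ) * N * l := by
        have := mul_le_mul_of_nonneg_right hD1 (by positivity : (0 : ℝ) ≤ (N : ℝ) * l)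
        linarith
      have e5 : ((N : ℝ) * l) ^ (2 * δ) ≤ ((D : ℝ) * N * l) ^ (2 * δ) :=
        Real.rpow_le_rpow (by positivity) e4 (by positivity)
      gcongr
    refine (sum_le_sum h3).trans ?_
    rw [sum_const, nsmul_eq_mul]
    have h7 : ((((osf N).filter (fun n => 2 ≤ n)).card : ℕ) : ℝ) ≤ N := by
      have : ((osf N).filter (fun n => 2 ≤ n)).card ≤ N := by
        refine (card_filter_le _ _).trans ?_
        unfold osf
        refine (card_filter_le _ _).trans ?_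
        rw [Nat.card_Icc, Nat.add_sub_cancel]
      exact_mod_cast this
    have h8 : (N : ℝ) * N ≤ (D * N : ℝ) / (r : ℝ) ^ 2 := by
      calc (N : ℝ) * N ≤ (D : ℝ) / (r : ℝ) ^ 2 * N :=
            mul_le_mul_of_nonneg_right (hNE'.trans hE) (by linarith)
        _ = _ := by ring
    calc _ ≤ (N : ℝ) * (C2 ^ 2 * ((D : ℝ) * N * l) ^ (2 * δ) * N) :=
          mul_le_mul_of_nonneg_right h7 (by positivity)
      _ = (C2 ^ 2 * ((D : ℝ) * N * l) ^ (2 * δ)) * ((N : ℝ) * N) := by ring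
      _ ≤ (C2 ^ 2 * ((D : ℝ) * N * l) ^ (2 * δ)) * ((D * N : ℝ) / (r : ℝ) ^ 2) :=
          mul_le_mul_of_nonneg_left h8 (by positivity)
      _ ≤ _ := by
          refine mul_le_mul_of_nonneg_right ?_ (by positivity)
          refine mul_le_mul_of_nonneg_right ?_ hPp
          linarith
  · have hNE' : (E : ℝ) ≤ N := by exact_mod_cast hNE.le
    have h3 : ∑ n ∈ (osf N).filter (fun n => 2 ≤ n), |SS a l n E| ^ 2 ≤
        ∑ n ∈ osf N, |SS a l n E| ^ 2 :=
      sum_le_sum_of_subset_of_nonneg (filter_subset _ _) fun _ _ _ => by positivity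
    have h4 : ∑ n ∈ osf N, |SS a l n E| ^ 2 ≤
        C1 * ((N : ℝ) * E) ^ δ * (N * E + (E : ℝ) ^ 2) := h1 N E l a hN hE0 hl ha
    refine h3.trans (h4.trans ?_)
    have e1 : ((N : ℝ) * E) ^ δ ≤ ((D : ℝ) * N * l) ^ (2 * δ) := by
      have e2 : (N : ℝ) * E ≤ (D : ℝ) * N * l := by
        calc (N : ℝ) * E ≤ N * D := mul_le_mul_of_nonneg_left hED (by linarith)
          _ = (D : ℝ) * N * 1 := by ring
          _ ≤ (D : ℝ) * N * l := mul_le_mul_of_nonneg_left hl1 (by positivity)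
      calc ((N : ℝ) * E) ^ δ ≤ ((D : ℝ) * N * l) ^ δ :=
            Real.rpow_le_rpow (by positivity) e2 hδ.le
        _ ≤ _ := Real.rpow_le_rpow_of_exponent_le hP (by linarith)
    have e3 : (N : ℝ) * E + (E : ℝ) ^ 2 ≤ 2 * ((D * N : ℝ) / (r : ℝ) ^ 2) := by
      have e4 : (E : ℝ) ^ 2 ≤ N * E := by
        rw [pow_two]
        exact mul_le_mul_of_nonneg_right hNE' (by linarith)
      have e5 : (N : ℝ) * E ≤ (D * N : ℝ) / (r : ℝ) ^ 2 := by
        calc (N : ℝ) * E ≤ N * ((D : ℝ) / (r : ℝ) ^ 2) :=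
              mul_le_mul_of_nonneg_left hE (by linarith)
          _ = _ := by ring
      linarith
    calc C1 * ((N : ℝ) * E) ^ δ * (N * E + (E : ℝ) ^ 2)
        ≤ C1 * ((D : ℝ) * N * l) ^ (2 * δ) * (2 * ((D * N : ℝ) / (r : ℝ) ^ 2)) := by gcongr
      _ = (2 * C1 * ((D : ℝ) * N * l) ^ (2 * δ)) * ((D * N : ℝ) / (r : ℝ) ^ 2) := by ring
      _ ≤ _ := by
          refine mul_le_mul_of_nonneg_right ?_ (by positivity)
          refine mul_le_mul_of_nonneg_right ?_ hPp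
          nlinarith [sq_nonneg C2]

theorem harm (D : ℕ) : ∑ r ∈ Icc 1 D, (1 : ℝ) / r ≤ 1 + Real.log D := by
  have h := harmonic_le_one_add_log D
  rw [harmonic_eq_sum_Icc] at h
  push_cast at h
  simpa [one_div] using h

theorem NS2 (h1 : S_HBE) (h2 : S_PVC) : S_NS2 := by
  intro ε hε
  set δ : ℝ := ε / 4 with hδ
  have hδ0 : 0 < δ := by positivity
  obtain ⟨C1, hC1, g1⟩ := h1 δ hδ0
  obtain ⟨C2, hC2, g2⟩ := h2 δ hδ0
  refine ⟨(C2 ^ 2 + 2 * C1) * (1 + 1 / δ) ^ 2, by positivity, ?_⟩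
  intro D N l a hD hN hl ha
  have hD1 : (1 : ℝ) ≤ D := by exact_mod_cast hD
  have hN1 : (1 : ℝ) ≤ N := by exact_mod_cast hN
  have hl1 : (1 : ℝ) ≤ l := by exact_mod_cast hl
  have hP : (D : ℝ) ≤ (D : ℝ) * N * l := by
    have e1 : (D : ℝ) * 1 ≤ D * N := mul_le_mul_of_nonneg_left hN1 (by linarith)
    have e2 : (D : ℝ) * N * 1 ≤ D * N * l := mul_le_mul_of_nonneg_left hl1 (by positivity)
    linarith
  set P : ℝ := (D : ℝ) * N * l with hPdef
  have hP1 : 1 ≤ P := hD1.trans hP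
  set H : ℝ := ∑ r ∈ Icc 1 D, (1 : ℝ) / r with hH
  have hH0 : 0 ≤ H := sum_nonneg fun _ _ => by positivity
  set K : ℝ := (C2 ^ 2 + 2 * C1) * P ^ (2 * δ) with hK
  have hK0 : 0 ≤ K := by positivity
  -- Cauchy-Schwarz
  have step1 : ∀ n, |∑ d ∈ (Finset.Icc 1 D).filter
      (fun d => Squarefree d ∧ d % 8 = a ∧ Nat.Coprime d l), js d n| ^ 2 ≤
      H * ∑ r ∈ Icc 1 D, (r : ℝ) * |SS a l n (D / r ^ 2)| ^ 2 := by
    intro n
    have e1 := outer_le n a D l ha
    refine (pow_le_pow_left₀ (abs_nonneg _) e1 2).trans ?_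
    refine sum_sq_le_sum_mul_sum_of_sq_eq_mul _ (fun r _ => by positivity)
      (fun r _ => by positivity) (fun r hr => ?_)
    rw [mem_Icc] at hr
    have hr0 : (r : ℝ) ≠ 0 := by
      have : 0 < r := hr.1
      positivity
    field_simp
  have step2 : ∑ n ∈ (osf N).filter (fun n => 2 ≤ n),
      |∑ d ∈ (Finset.Icc 1 D).filter (fun d => Squarefree d ∧ d % 8 = a ∧ Nat.Coprime d l),
        js d n| ^ 2 ≤ H * ∑ r ∈ Icc 1 D, (r : ℝ) *
          ∑ n ∈ (osf N).filter (fun n => 2 ≤ n), |SS a l n (D / r ^ 2)| ^ 2 := by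
    refine (sum_le_sum fun n _ => step1 n).trans (le_of_eq ?_)
    rw [← mul_sum, sum_comm]
    congr 1
    refine sum_congr rfl fun r _ => ?_
    rw [mul_sum]
  have step3 : ∑ r ∈ Icc 1 D, (r : ℝ) *
      ∑ n ∈ (osf N).filter (fun n => 2 ≤ n), |SS a l n (D / r ^ 2)| ^ 2 ≤ K * (D * N) * H := by
    rw [hH, mul_sum]
    refine sum_le_sum fun r hr => ?_
    rw [mem_Icc] at hr
    have e1 := Q_le hC1 hC2 hδ0 g1 g2 hD hN hl ha hr.1
    have hr0 : (0 : ℝ) < r := by exact_mod_cast hr.1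
    calc (r : ℝ) * _ ≤ (r : ℝ) * (K * ((D * N : ℝ) / (r : ℝ) ^ 2)) :=
          mul_le_mul_of_nonneg_left e1 hr0.le
      _ = _ := by field_simp
  have hH1 : H ≤ (1 + 1 / δ) * P ^ δ := by
    have e1 := harm D
    have e2 : Real.log D ≤ (D : ℝ) ^ δ / δ := Real.log_le_rpow_div (by linarith) hδ0
    have e3 : (D : ℝ) ^ δ ≤ P ^ δ := Real.rpow_le_rpow (by linarith) hP hδ0.le
    have e4 : 1 ≤ P ^ δ := Real.one_le_rpow hP1 hδ0.le
    have e5 : (D : ℝ) ^ δ / δ ≤ P ^ δ / δ := by gcongr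
    calc H ≤ 1 + Real.log D := e1
      _ ≤ P ^ δ + P ^ δ / δ := by linarith
      _ = _ := by ring
  have hP0 : 0 < P := by linarith
  calc _ ≤ H * (K * (D * N) * H) := step2.trans (mul_le_mul_of_nonneg_left step3 hH0)
    _ = K * (D * N) * H ^ 2 := by ring
    _ ≤ K * (D * N) * ((1 + 1 / δ) * P ^ δ) ^ 2 :=
        mul_le_mul_of_nonneg_left (pow_le_pow_left₀ hH0 hH1 2) (by positivity)
    _ = (C2 ^ 2 + 2 * C1) * (1 + 1 / δ) ^ 2 * (P ^ (2 * δ) * (P ^ δ) ^ 2) * (D * N) := by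
        rw [hK]; ring
    _ = _ := by
        have e1 : P ^ (2 * δ) * (P ^ δ) ^ 2 = P ^ ε := by
          rw [← Real.rpow_natCast (P ^ δ) 2, ← Real.rpow_mul hP0.le, ← Real.rpow_add hP0]
          congr 1
          rw [hδ]
          push_cast
          ring
        rw [e1]

end Pool.Agent.Y492.QF
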